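import Mathlib
import Pool.Agent.W620.FL.Dichotomy

/-!
# A dichotomy for flats

Let `G` act geometrically on a proper metric space `X` (for instance a proper CAT(0) space) and let
`F` be a flat, i.e. the image of an isometric embedding `f` of the Euclidean plane.  Then `G`
contains a free abelian subgroup of rank two, or there are continuum many limits of translates
`g F` of `F`, all of them meeting one ball, no two of which are parallel, even after moving one of
them by an element of `G`.

Idea of the proof.  Take a minimal closed set `M` of parametrised flats in the closure of the
translates of `F` which is invariant under `G` and under the isometries of the plane.  Being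
`n`-parallel up to the finitely many `g` which move the base point by at most `n` is a closed
relation.  If all these relations have empty interior in `M × M`, a Cantor scheme gives the
continuum many flats.  Otherwise some open piece of `M` consists of uniformly parallel flats (up to
finitely many group elements); by minimality and compactness every translate of a flat `f₁` of this
piece comes back to a bounded neighbourhood of `f₁`, so there are group elements `h` and isometries
`e` of the plane with `d(h f₁(z), f₁(e z)) ≤ n` for all `z`, and the `e(0)` are coarsely dense.
Commutators give such elements with translations `e`, then commutators of two such elements lie in a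
finite set, and the pigeonhole principle gives two commuting elements which act on `f₁` coarsely as
two linearly independent translations.
-/

namespace Pool.Agent.Results.MP_140312_al.FlatDichotomy
open Set

/-- The Euclidean plane. -/
abbrev Plane : Type := EuclideanSpace ℝ (Fin 2)

/-- The limit flats of the flat parametrised by `f`: the closure, for pointwise convergence, of
the set of all isometric embeddings of the plane whose image is a translate `g • F` of the image
`F` of `f`. -/
def LimitFlats (G : Type*) {X : Type*} [Group G] [MetricSpace X] [MulAction G X]
    (f : Plane → X) : Set (Plane → X) :=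
  closure {h : Plane → X | Isometry h ∧ ∃ g : G, range h = (fun x => g • x) '' range f}

/-- Two parametrised flats are parallel if they stay at bounded distance from each other after a
reparametrisation by an isometry of the plane. -/
def Parallel {X : Type*} [MetricSpace X] (f c : Plane → X) : Prop :=
  ∃ (e : Plane ≃ᵢ Plane) (n : ℝ), ∀ z, dist (f z) (c (e z)) ≤ n

/-- Let `G` act geometrically (by isometries, properly discontinuously, cocompactly) on a proper
metric space `X` and let `f` be an isometric embedding of the Euclidean plane.  Then `G` contains a
subgroup isomorphic to `ℤ²`, or `f` has continuum many limit flats `Φ x` (`x` a sequence of zeros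
and ones), all meeting one ball, such that `Φ x` is not parallel to any translate `g • Φ y`,
`g ∈ G`, for `x ≠ y`. -/
theorem result {X : Type*} [MetricSpace X] [ProperSpace X] {G : Type*} [Group G] [MulAction G X]
    [IsIsometricSMul G X] [ProperlyDiscontinuousSMul G X]
    (hcc : ∃ K : Set X, IsCompact K ∧ ∀ x : X, ∃ g : G, g • x ∈ K)
    (f : Plane → X) (hf : Isometry f) :
    (∃ φ : Multiplicative (ℤ × ℤ) →* G, Function.Injective φ) ∨
    ∃ (Φ : (ℕ → Bool) → (Plane → X)) (R : ℝ),
      (∀ x, Isometry (Φ x) ∧ Φ x ∈ LimitFlats G f ∧ dist (Φ x 0) (f 0) ≤ R) ∧
      ∀ x y, x ≠ y → ∀ g : G, ¬ Parallel (Φ x) (fun z => g • Φ y z) := by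
  obtain ⟨K, hK, hGK⟩ := hcc
  set i : ℂ ≃ᵢ Plane := Complex.orthonormalBasisOneI.repr.toIsometryEquiv with hi
  have hi0 : i.symm 0 = 0 := by
    rw [hi]; exact map_zero Complex.orthonormalBasisOneI.repr.symm
  have hinv := Pool.Agent.W620.FL.inv_closure (G := G) (f ∘ i)
  rcases Pool.Agent.W620.FL.dichotomy_complex (f 0) hK hGK hinv ⟨f ∘ i, subset_closure
    ⟨hf.comp i.isometry, 1, by simp⟩⟩ with h | ⟨Φ, R, hΦ1, hΦ2, hΦ3⟩
  · exact Or.inl h
  · right
    refine ⟨fun x p => Φ x (i.symm p), R, fun x => ⟨?_, ?_, ?_⟩, ?_⟩
    · exact (hinv.isom _ (hΦ1 x)).comp i.symm.isometry
    · refine map_mem_closure (f := fun (h : ℂ → X) (p : Plane) => h (i.symm p)) ?_ (hΦ1 x) ?_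
      · exact continuous_pi fun p => continuous_apply (i.symm p)
      · rintro h ⟨h1, g, h2⟩
        refine ⟨h1.comp i.symm.isometry, g, ?_⟩
        have e1 : range (fun p : Plane => h (i.symm p)) = range h :=
          i.symm.surjective.range_comp h
        have e2 : range (f ∘ i) = range f := i.surjective.range_comp f
        rw [e1, h2, e2]
    · simp only [hi0]; exact hΦ2 x
    · rintro x y hxy g ⟨e, n, hn⟩
      refine hΦ3 x y hxy g ⟨(i.trans e).trans i.symm, n, fun z => ?_⟩
      have h2 := hn (i z)
      simp only [IsometryEquiv.symm_apply_apply] at h2
      simpa using h2

end Pool.Agent.Results.MP_140312_al.FlatDichotomy
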